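import Pool.Agent.H535R3.KI

set_option autoImplicit false
open Filter Topology

namespace Pool.Agent.Results.MP_1623fe_an.BranchesNotBothVertical

/-- Let `ω > 0`, let `r` be an integer and let the phase-lock area `L_r` of
`φ' = (1/ω)(-sin φ + B + A cos τ)` be `{gm(A) ≤ B ≤ gp(A)}` with `gm ≤ gp`. At an adjacency `(B₀, A₀)` of `L_r`
with `A₀ > 0`, that is a point where `gm(A₀) = gp(A₀) = B₀`, the two branches `B = gm(A)`, `B = gp(A)` of the
boundary are not both tangent to the vertical line `B = B₀`; this holds for the two-sided tangency, and also for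
the one-sided tangencies from above and from below. -/
theorem result : ∀ ω : ℝ, 0 < ω → ∀ r : ℤ, ∀ gm gp : ℝ → ℝ, (∀ A : ℝ, gm A ≤ gp A) →
    (∀ B A : ℝ, (∃ φ : ℝ → ℝ,
        (∀ τ : ℝ, HasDerivAt φ (1 / ω * (-Real.sin (φ τ) + B + A * Real.cos τ)) τ) ∧
        Tendsto (fun τ : ℝ => φ τ / τ) atTop (𝓝 (r : ℝ))) ↔ gm A ≤ B ∧ B ≤ gp A) →
    ∀ B₀ A₀ : ℝ, 0 < A₀ → gm A₀ = B₀ → gp A₀ = B₀ →
      ¬ (HasDerivAt gm 0 A₀ ∧ HasDerivAt gp 0 A₀) ∧
      ¬ (HasDerivWithinAt gm 0 (Set.Ioi A₀) A₀ ∧ HasDerivWithinAt gp 0 (Set.Ioi A₀) A₀) ∧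
      ¬ (HasDerivWithinAt gm 0 (Set.Iio A₀) A₀ ∧ HasDerivWithinAt gp 0 (Set.Iio A₀) A₀) := by
  intro ω hω r gm gp hle hL B₀ A₀ hA₀ h1 h2
  have h0 : gm A₀ = gp A₀ := h1.trans h2.symm
  have k1 := H535R3.not_both_vertical hω hle hL hA₀ h0 (σ := 1) (S := Set.Ioi A₀) (by simp)
    (fun s hs => by simp [hs])
  have k2 := H535R3.not_both_vertical hω hle hL hA₀ h0 (σ := -1) (S := Set.Iio A₀) (by simp)
    (fun s hs => by simp [hs])
  exact ⟨fun h => k1 ⟨h.1.hasDerivWithinAt, h.2.hasDerivWithinAt⟩, k1, k2⟩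

end Pool.Agent.Results.MP_1623fe_an.BranchesNotBothVertical
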